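import Mathlib
import Pool.Agent.TH278.DX.Exact
import Pool.Agent.TH28.LE.Lit2

/-!
# Unitarisability and the Littlewood exponent for groups with property A (exact groups)

For a discrete group `Γ` with property A (equivalently, an exact group) the following are
equivalent: `Γ` is unitarisable; `Γ` is amenable; every Littlewood function on `Γ` is summable;
`Lit Γ ≤ 1`. So for these groups the necessary condition `Lit Γ ≤ 2` for unitarisability is improved
to `Lit Γ ≤ 1`, which is also sufficient; the question whether `Lit Γ ≤ 2` is sufficient becomes,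
for groups with property A, the question whether `(1, 2]` is a forbidden range. If the question has
a positive answer for all groups, then all groups with `Lit Γ ≤ 2` have only amenable subquotients
with property A.

The theorem that unitarisable groups with property A are amenable is due to helper278
(`Pool.Agent.TH278.DX.Exact`).
-/

set_option autoImplicit false

noncomputable section

namespace Pool.Agent.Results.MP_e36817_an.LittlewoodExactGroups

open scoped ENNReal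

section reps

/-- homomorphisms of `Γ` into the group of invertible bounded operators on `H` -/
abbrev Rep (Γ H : Type) [Group Γ] [NormedAddCommGroup H] [InnerProductSpace ℂ H] : Type :=
  Γ →* (H →L[ℂ] H)ˣ

variable {H : Type} [NormedAddCommGroup H] [InnerProductSpace ℂ H]

/-- the operator of an invertible element -/
def val (S : (H →L[ℂ] H)ˣ) : H →L[ℂ] H := S

variable {Γ : Type} [Group Γ]

/-- `π` is uniformly bounded: `sup_g ‖π(g)‖ < ∞`. -/
def UniformlyBounded (π : Rep Γ H) : Prop := ∃ c : ℝ, ∀ g : Γ, ‖val (π g)‖ ≤ c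

/-- Some bounded invertible `S` makes all `S π(g) S⁻¹` unitary. -/
def IsUnitarisable [CompleteSpace H] (π : Rep Γ H) : Prop :=
  ∃ S : (H →L[ℂ] H)ˣ, ∀ g : Γ, val (S * π g * S⁻¹) ∈ unitary (H →L[ℂ] H)

end reps

/-- Every uniformly bounded representation of `Γ` on a complex Hilbert space is unitarisable. -/
def Unitarisable (Γ : Type) [Group Γ] : Prop :=
  ∀ (H : Type) [NormedAddCommGroup H] [InnerProductSpace ℂ H] [CompleteSpace H] (π : Rep Γ H),
    UniformlyBounded π → IsUnitarisable π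

/-- `f` is a bounded function. -/
def Bd {Γ : Type} (f : Γ → ℝ) : Prop := ∃ C : ℝ, ∀ x, |f x| ≤ C

/-- `m` is linear, positive and normalised on the bounded functions: a mean. -/
def IsMean {Γ : Type} (m : (Γ → ℝ) → ℝ) : Prop :=
  (∀ f h : Γ → ℝ, Bd f → Bd h → m (fun x => f x + h x) = m f + m h) ∧
  (∀ (r : ℝ) (f : Γ → ℝ), Bd f → m (fun x => r * f x) = r * m f) ∧
  (∀ f : Γ → ℝ, Bd f → (∀ x, 0 ≤ f x) → 0 ≤ m f) ∧
  m (fun _ => 1) = 1

/-- `Γ` is amenable: there is a left-invariant mean on the bounded real functions on `Γ`. -/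
def Amenable (Γ : Type) [Group Γ] : Prop :=
  ∃ m : (Γ → ℝ) → ℝ, IsMean m ∧ ∀ (g : Γ) (f : Γ → ℝ), Bd f → m (fun x => f (g⁻¹ * x)) = m f

/-- Property A of Yu for the discrete group `Γ`: for every finite `E` and `ε > 0` there are a
finite `K` and unit vectors `ξ_v ∈ ℓ²(Γ)` (`v ∈ Γ`), `ξ_v` supported in `v K`, with
`⟨ξ_v, ξ_{v g}⟩ ≥ 1 - ε` for all `v ∈ Γ` and `g ∈ E`. -/
def PropertyA (Γ : Type) [Group Γ] : Prop :=
  ∀ (E : Finset Γ) (ε : ℝ), 0 < ε → ∃ (K : Finset Γ) (ξ : Γ → Γ → ℝ),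
    (∀ v x, ξ v x ≠ 0 → v⁻¹ * x ∈ K) ∧
    (∀ v, ∑ k ∈ K, ξ v (v * k) ^ 2 = 1) ∧
    ∀ v, ∀ g ∈ E, 1 - ε ≤ ∑ k ∈ K, ξ v (v * k) * ξ (v * g) (v * k)

/-- `f` is a Littlewood function, `f ∈ T₁(Γ)`: `f(x⁻¹ y) = f₁(x, y) + f₂(x, y)` for all `x`, `y`,
where the sums `∑_y |f₁(x, y)|` and `∑_x |f₂(x, y)|` are bounded. -/
def Littlewood {Γ : Type} [Group Γ] (f : Γ → ℂ) : Prop :=
  ∃ f₁ f₂ : Γ → Γ → ℂ, (∀ x y, f (x⁻¹ * y) = f₁ x y + f₂ x y) ∧
    (∃ C : ℝ, ∀ x, Summable (fun y => ‖f₁ x y‖) ∧ ∑' y, ‖f₁ x y‖ ≤ C) ∧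
    (∃ C : ℝ, ∀ y, Summable (fun x => ‖f₂ x y‖) ∧ ∑' x, ‖f₂ x y‖ ≤ C)

/-- `T₁(Γ) ⊆ ℓ^p(Γ)` -/
def T1InEll (Γ : Type) [Group Γ] (p : ℝ) : Prop :=
  ∀ f : Γ → ℂ, Littlewood f → Summable fun g => ‖f g‖ ^ p

/-- The Littlewood exponent: the infimum in `[0, ∞]` of the `p > 0` with `T₁(Γ) ⊆ ℓ^p(Γ)`. -/
def Lit (Γ : Type) [Group Γ] : ℝ≥0∞ := sInf {e | ∃ p : ℝ, 0 < p ∧ T1InEll Γ p ∧ e = ENNReal.ofReal p}

theorem littlewood_iff {Γ : Type} [Group Γ] (f : Γ → ℂ) : Littlewood f ↔ TH28.LE.Littlewood f := by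
  constructor
  · rintro ⟨f₁, f₂, h, ⟨C, hC⟩, ⟨D, hD⟩⟩
    refine ⟨f₁, f₂, max C D, h, fun x S => ?_, fun y S => ?_⟩
    · exact (((hC x).1.sum_le_tsum S fun i _ => norm_nonneg _).trans (hC x).2).trans
        (le_max_left _ _)
    · exact (((hD y).1.sum_le_tsum S fun i _ => norm_nonneg _).trans (hD y).2).trans
        (le_max_right _ _)
  · rintro ⟨f₁, f₂, C, h, h1, h2⟩
    refine ⟨f₁, f₂, h, ⟨C, fun x => ?_⟩, ⟨C, fun y => ?_⟩⟩
    · have hs : Summable fun y => ‖f₁ x y‖ := summable_of_sum_le (fun _ => norm_nonneg _) (h1 x)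
      exact ⟨hs, hs.tsum_le_of_sum_le (h1 x)⟩
    · have hs : Summable fun x => ‖f₂ x y‖ := summable_of_sum_le (fun _ => norm_nonneg _) (h2 y)
      exact ⟨hs, hs.tsum_le_of_sum_le (h2 y)⟩

theorem ell_mono {Γ : Type} [Group Γ] {p q : ℝ} (hp : 0 < p) (hpq : p ≤ q) (h : T1InEll Γ p) :
    T1InEll Γ q := by
  intro f hf
  have h1 := h f hf
  have h2 : ∀ᶠ g in Filter.cofinite, ‖f g‖ ^ q ≤ ‖f g‖ ^ p := by
    filter_upwards [h1.tendsto_cofinite_zero.eventually (gt_mem_nhds one_pos)] with g hg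
    by_cases h0 : ‖f g‖ = 0
    · rw [h0, Real.zero_rpow hp.ne', Real.zero_rpow (hp.trans_le hpq).ne']
    · have h3 : ‖f g‖ ≤ 1 := by
        by_contra hc
        exact absurd hg (not_lt.2 (Real.one_le_rpow (not_le.1 hc).le hp.le))
      exact Real.rpow_le_rpow_of_exponent_ge (lt_of_le_of_ne (norm_nonneg _) (Ne.symm h0)) h3 hpq
  exact Summable.of_norm_bounded_eventually h1 (h2.mono fun g hg => by
    rwa [Real.norm_of_nonneg (Real.rpow_nonneg (norm_nonneg _) _)])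

theorem amenable_iff {Γ : Type} [Group Γ] : Amenable Γ ↔ TH278.DX.Amenable Γ := by
  constructor
  · rintro ⟨m, ⟨h1, h2, h3, h4⟩, h5⟩
    exact ⟨m, h1, h2, h3, h4, h5⟩
  · rintro ⟨m, h1, h2, h3, h4, h5⟩
    exact ⟨m, ⟨h1, h2, h3, h4⟩, h5⟩

theorem ell_one_of_amenable {Γ : Type} [Group Γ] (h : Amenable Γ) : T1InEll Γ 1 := by
  intro f hf
  simp only [Real.rpow_one]
  exact TH28.LE.summable_of_amenable (amenable_iff.1 h) ((littlewood_iff f).1 hf)

theorem lit_le_one {Γ : Type} [Group Γ] (h : T1InEll Γ 1) : Lit Γ ≤ 1 :=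
  sInf_le ⟨1, one_pos, h, by simp⟩

theorem amenable_of_lit {Γ : Type} [Group Γ] (h : Lit Γ ≤ 1) : Amenable Γ := by
  by_contra hG
  rw [amenable_iff] at hG
  obtain ⟨p, hp, f, hf, hns⟩ := TH28.LE.exists_not_summable hG
  have h1 : Lit Γ < ENNReal.ofReal p := h.trans_lt (by
    rw [← ENNReal.ofReal_one]
    exact (ENNReal.ofReal_lt_ofReal_iff (by linarith)).2 hp)
  obtain ⟨e, ⟨q, hq, hqe, rfl⟩, he⟩ := sInf_lt_iff.1 h1
  have h2 : q < p := (ENNReal.ofReal_lt_ofReal_iff (by linarith)).1 he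
  exact hns (ell_mono hq h2.le hqe f ((littlewood_iff f).2 hf))

theorem key {Γ : Type} [Group Γ] (hU : Unitarisable Γ) (c : ℝ) (H : Type) [NormedAddCommGroup H]
    [InnerProductSpace ℂ H] [CompleteSpace H] (π : Γ →* (H →L[ℂ] H)ˣ) (hπ : TH278.DX.Bdd π c) :
    ∃ κ : ℝ, TH278.DX.Sim π κ := by
  obtain ⟨S, hS⟩ := hU H π ⟨c, hπ⟩
  exact ⟨_, S, le_rfl, hS⟩

theorem unitarisable_of_amenable {Γ : Type} [Group Γ] (hG : Amenable Γ) : Unitarisable Γ := by
  intro H _ _ _ π ⟨c, hc⟩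
  obtain ⟨κ, S, -, hS⟩ := TH889.J5187.unitarizable_of_amenable (amenable_iff.1 hG) π c hc
  exact ⟨S, hS⟩

/-- **The Littlewood exponent and unitarisability for exact groups.**
(1) For a group with property A: unitarisable, amenable, `T₁ ⊆ ℓ¹` and `Lit ≤ 1` are equivalent.
(2) Every group with property A and `Lit ≤ 2` is unitarisable if and only if no group with
property A has its Littlewood exponent in `(1, 2]`; the same holds for each single group.
(3) If every group with `Lit ≤ 2` is unitarisable, then for every group `Γ` with `Lit Γ ≤ 2` all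
groups with property A which are quotients of subgroups of `Γ` are amenable. -/
theorem result :
    (∀ (Γ : Type) [Group Γ], PropertyA Γ →
      [Unitarisable Γ, Amenable Γ, T1InEll Γ 1, Lit Γ ≤ 1].TFAE) ∧
    (∀ (Γ : Type) [Group Γ], PropertyA Γ →
      ((Lit Γ ≤ 2 → Unitarisable Γ) ↔ ¬ (1 < Lit Γ ∧ Lit Γ ≤ 2))) ∧
    ((∀ (Γ : Type) [Group Γ], Lit Γ ≤ 2 → Unitarisable Γ) →
      ∀ (Γ : Type) [Group Γ], Lit Γ ≤ 2 → ∀ (Λ : Subgroup Γ) (Q : Type) [Group Q] (φ : Λ →* Q),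
        Function.Surjective φ → PropertyA Q → Amenable Q) := by
  have h1 : ∀ (Γ : Type) [Group Γ], PropertyA Γ →
      [Unitarisable Γ, Amenable Γ, T1InEll Γ 1, Lit Γ ≤ 1].TFAE := by
    intro Γ _ hA
    tfae_have 1 → 2 := fun hU => amenable_iff.2 (TH278.DX.amenable_of_unitarizable hA (key hU))
    tfae_have 2 → 1 := unitarisable_of_amenable
    tfae_have 2 → 3 := ell_one_of_amenable
    tfae_have 3 → 4 := lit_le_one
    tfae_have 4 → 2 := amenable_of_lit
    tfae_finish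
  refine ⟨h1, fun Γ _ hA => ?_, fun hQ Γ _ hΓ Λ Q _ φ hφ hA => ?_⟩
  · have h2 : Unitarisable Γ ↔ Lit Γ ≤ 1 := (h1 Γ hA).out 0 3
    rw [h2]
    constructor
    · rintro h ⟨h3, h4⟩
      exact absurd (h h4) (not_le.2 h3)
    · intro h h3
      by_contra h4
      exact h ⟨not_le.1 h4, h3⟩
  · exact amenable_iff.2 (TH278.DX.amenable_of_unitarizable hA
      (TH278.DX.unitarizable_subquotient (key (hQ Γ hΓ)) Λ φ hφ))

end Pool.Agent.Results.MP_e36817_an.LittlewoodExactGroups
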